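import Mathlib

set_option autoImplicit false

/-! Basic rank function on coordinate functionals of a subspace of `ι → ℝ`.
Adapted from the modules of helper137 for the sibling problem MP_a0e17f_co. -/

namespace Pool.Agent.Helper894.Div.Core

open Finset Module

section Lin
variable {ι : Type*} [Fintype ι] [DecidableEq ι]

/-- The vectors of `L` vanishing on `F`. -/
def Lz (L : Submodule ℝ (ι → ℝ)) (F : Finset ι) : Submodule ℝ (ι → ℝ) where
  carrier := {y | y ∈ L ∧ ∀ i ∈ F, y i = 0}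
  zero_mem' := ⟨L.zero_mem, fun _ _ => rfl⟩
  add_mem' := by
    rintro a b ⟨ha, ha2⟩ ⟨hb, hb2⟩
    refine ⟨L.add_mem ha hb, fun i hi => ?_⟩
    simp [ha2 i hi, hb2 i hi]
  smul_mem' := by
    rintro c a ⟨ha, ha2⟩
    refine ⟨L.smul_mem c ha, fun i hi => ?_⟩
    simp [ha2 i hi]

lemma mem_Lz (L : Submodule ℝ (ι → ℝ)) (F : Finset ι) (y : ι → ℝ) :
    y ∈ Lz L F ↔ y ∈ L ∧ ∀ i ∈ F, y i = 0 := Iff.rfl

lemma Lz_empty (L : Submodule ℝ (ι → ℝ)) : Lz L ∅ = L := by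
  ext y; simp [mem_Lz]

noncomputable def rk (L : Submodule ℝ (ι → ℝ)) (F : Finset ι) : ℤ :=
  (finrank ℝ L : ℤ) - finrank ℝ (Lz L F)

lemma rk_empty (L : Submodule ℝ (ι → ℝ)) : rk L ∅ = 0 := by
  unfold rk
  rw [Lz_empty]
  ring

lemma rk_sub (L : Submodule ℝ (ι → ℝ)) (A B : Finset ι) :
    rk L (A ∪ B) + rk L (A ∩ B) ≤ rk L A + rk L B := by
  have h1 : Lz L A ⊓ Lz L B = Lz L (A ∪ B) := by
    ext y
    simp only [Submodule.mem_inf, mem_Lz, mem_union]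
    constructor
    · rintro ⟨⟨a, b⟩, ⟨c, d⟩⟩
      exact ⟨a, fun i hi => hi.elim (b i) (d i)⟩
    · rintro ⟨a, b⟩
      exact ⟨⟨a, fun i hi => b i (Or.inl hi)⟩, ⟨a, fun i hi => b i (Or.inr hi)⟩⟩
  have h2 : Lz L A ⊔ Lz L B ≤ Lz L (A ∩ B) := by
    refine sup_le ?_ ?_
    · rintro y ⟨a, b⟩
      exact ⟨a, fun i hi => b i (mem_inter.mp hi).1⟩
    · rintro y ⟨a, b⟩
      exact ⟨a, fun i hi => b i (mem_inter.mp hi).2⟩
  have h3 := Submodule.finrank_sup_add_finrank_inf_eq (Lz L A) (Lz L B)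
  have h4 := Submodule.finrank_mono h2
  rw [h1] at h3
  simp only [rk]
  omega

lemma Lz_anti (L : Submodule ℝ (ι → ℝ)) {A B : Finset ι} (h : A ⊆ B) : Lz L B ≤ Lz L A := by
  rintro y ⟨a, b⟩
  exact ⟨a, fun i hi => b i (h hi)⟩

lemma rk_le (L : Submodule ℝ (ι → ℝ)) (A : Finset ι) : rk L A ≤ finrank ℝ L := by
  simp only [rk]; omega

end Lin

end Pool.Agent.Helper894.Div.Core
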