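import Mathlib
import Pool.Agent.Helper894.Div.Core

set_option autoImplicit false

namespace Pool.Agent.Helper894.Div.KL

open Finset Module Filter Topology Pool.Agent.Helper894.Div.Core

variable {ι : Type*} [Fintype ι] [DecidableEq ι]

open Classical in
/-- Coordinates where `y` is positive. -/
noncomputable def pos (y : ι → ℝ) : Finset ι := univ.filter (fun i => 0 < y i)

open Classical in
/-- Coordinates where `y` is negative. -/
noncomputable def neg (y : ι → ℝ) : Finset ι := univ.filter (fun i => y i < 0)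

lemma mem_pos (y : ι → ℝ) (i : ι) : i ∈ pos y ↔ 0 < y i := by simp [pos]
lemma mem_neg (y : ι → ℝ) (i : ι) : i ∈ neg y ↔ y i < 0 := by simp [neg]

lemma pos_neg_eq (y : ι → ℝ) : pos (-y) = neg y := by
  ext i; simp [mem_pos, mem_neg]
lemma neg_neg_eq (y : ι → ℝ) : neg (-y) = pos y := by
  ext i; simp [mem_pos, mem_neg]

/-- Small perturbations inside `L` keep signs and avoid finitely many hyperplanes. -/
lemma perturb (L : Submodule ℝ (ι → ℝ)) (y : ι → ℝ) (hy : y ∈ L)
    (s : Finset ((ι → ℝ) →ₗ[ℝ] ℝ)) (hs : ∀ g ∈ s, ∃ v ∈ L, g v ≠ 0) :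
    ∃ y' ∈ L, (∀ i, y i ≠ 0 → 0 < y i * y' i) ∧ ∀ g ∈ s, g y' ≠ 0 := by
  classical
  induction s using Finset.induction_on with
  | empty =>
    exact ⟨y, hy, fun i hi => mul_self_pos.mpr hi, by simp⟩
  | insert g s hg ih =>
    obtain ⟨y', hy', h1, h2⟩ := ih (fun g' hg' => hs g' (mem_insert_of_mem hg'))
    obtain ⟨v, hv, hgv⟩ := hs g (mem_insert_self _ _)
    have ev1 : ∀ᶠ ε in 𝓝[>] (0 : ℝ), ∀ i, y i ≠ 0 → 0 < y i * (y' i + ε * v i) := by
      rw [Filter.eventually_all]
      intro i
      by_cases hi : y i = 0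
      · exact Eventually.of_forall (fun ε h => absurd hi h)
      · have hc : Tendsto (fun ε : ℝ => y i * (y' i + ε * v i)) (𝓝[>] 0)
            (𝓝 (y i * (y' i + 0 * v i))) := by
          apply Tendsto.mono_left _ nhdsWithin_le_nhds
          apply Continuous.tendsto
          fun_prop
        have hp : 0 < y i * (y' i + 0 * v i) := by
          have := h1 i hi
          simpa using this
        filter_upwards [hc.eventually (lt_mem_nhds hp)] with ε hε _
        exact hε
    have ev2 : ∀ᶠ ε in 𝓝[>] (0 : ℝ), ∀ g' ∈ s, g' y' + ε * g' v ≠ 0 := by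
      rw [Filter.eventually_all_finset]
      intro g' hg'
      have hc : Tendsto (fun ε : ℝ => g' y' + ε * g' v) (𝓝[>] 0) (𝓝 (g' y' + 0 * g' v)) := by
        apply Tendsto.mono_left _ nhdsWithin_le_nhds
        apply Continuous.tendsto
        fun_prop
      have hne : g' y' + 0 * g' v ≠ 0 := by
        have := h2 g' hg'
        simpa using this
      exact hc.eventually_ne hne
    have ev3 : ∀ᶠ ε in 𝓝[>] (0 : ℝ), g y' + ε * g v ≠ 0 := by
      by_cases h0 : g y' = 0
      · have : ∀ᶠ ε in 𝓝[>] (0 : ℝ), 0 < ε := eventually_mem_nhdsWithin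
        filter_upwards [this] with ε hε
        rw [h0, zero_add]
        exact mul_ne_zero hε.ne' hgv
      · have hc : Tendsto (fun ε : ℝ => g y' + ε * g v) (𝓝[>] 0) (𝓝 (g y' + 0 * g v)) := by
          apply Tendsto.mono_left _ nhdsWithin_le_nhds
          apply Continuous.tendsto
          fun_prop
        have hne : g y' + 0 * g v ≠ 0 := by simpa using h0
        exact hc.eventually_ne hne
    obtain ⟨ε, e1, e2, e3⟩ := (ev1.and (ev2.and ev3)).exists
    refine ⟨y' + ε • v, L.add_mem hy' (L.smul_mem _ hv), ?_, ?_⟩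
    · intro i hi
      simpa using e1 i hi
    · intro g' hg'
      rw [map_add, map_smul, smul_eq_mul]
      rcases mem_insert.mp hg' with rfl | h
      · exact e3
      · exact e2 g' h

/-- Crossing exactly one wall. -/
lemma flip (y z : ι → ℝ) (hnz : ∀ i, y i ≠ 0)
    (hz0 : ∀ i, y i < 0 → z i = 0) (hex : ∃ i, z i < 0)
    (hdist : ∀ i j, i ≠ j → z i < 0 → z j < 0 → y i * z j ≠ y j * z i) :
    ∃ e, z e < 0 ∧ ∃ t : ℝ, y e + t * z e < 0 ∧ ∀ i, i ≠ e → 0 < y i * (y i + t * z i) := by
  classical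
  have hpos : ∀ i, z i < 0 → 0 < y i := by
    intro i hi
    rcases lt_or_gt_of_ne (hnz i) with h | h
    · rw [hz0 i h] at hi; exact absurd hi (lt_irrefl _)
    · exact h
  obtain ⟨i₀, hi₀⟩ := hex
  obtain ⟨e, he, hmin⟩ := Finset.exists_min_image (univ.filter (fun i => z i < 0))
    (fun i => y i / (- z i)) ⟨i₀, by simp [hi₀]⟩
  have hze : z e < 0 := (mem_filter.mp he).2
  have hye : 0 < y e := hpos e hze
  set t1 := y e / (- z e) with ht1
  have hstrict : ∀ i, i ≠ e → z i < 0 → 0 < y i + t1 * z i := by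
    intro i hi hzi
    have h1 : t1 ≤ y i / (- z i) := hmin i (by simp [hzi])
    have h2 : t1 ≠ y i / (- z i) := by
      intro heq
      rw [ht1, div_eq_div_iff (by linarith) (by linarith)] at heq
      exact hdist e i (Ne.symm hi) hze hzi (by linarith)
    have h3 : t1 < y i / (- z i) := lt_of_le_of_ne h1 h2
    rw [lt_div_iff₀ (by linarith)] at h3
    linarith
  have ev : ∀ᶠ δ in 𝓝[>] (0 : ℝ), ∀ i, i ≠ e → 0 < y i * (y i + (t1 + δ) * z i) := by
    rw [Filter.eventually_all]
    intro i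
    by_cases hi : i = e
    · exact Eventually.of_forall (fun _ h => absurd hi h)
    rcases lt_or_gt_of_ne (hnz i) with h | h
    · refine Eventually.of_forall (fun δ _ => ?_)
      rw [hz0 i h]
      nlinarith
    · rcases lt_or_ge (z i) 0 with h' | h'
      · have hc : Tendsto (fun δ : ℝ => y i * (y i + (t1 + δ) * z i)) (𝓝[>] 0)
            (𝓝 (y i * (y i + (t1 + 0) * z i))) := by
          apply Tendsto.mono_left _ nhdsWithin_le_nhds
          apply Continuous.tendsto
          fun_prop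
        have hp : 0 < y i * (y i + (t1 + 0) * z i) := by
          rw [add_zero]
          exact mul_pos h (hstrict i hi h')
        filter_upwards [hc.eventually (lt_mem_nhds hp)] with δ hδ _
        exact hδ
      · have hpos' : ∀ᶠ δ in 𝓝[>] (0 : ℝ), 0 < δ := eventually_mem_nhdsWithin
        filter_upwards [hpos'] with δ hδ _
        have : 0 < t1 := div_pos hye (by linarith)
        apply mul_pos h
        have : 0 ≤ (t1 + δ) * z i := mul_nonneg (by linarith) h'
        linarith
  have hpos' : ∀ᶠ δ in 𝓝[>] (0 : ℝ), 0 < δ := eventually_mem_nhdsWithin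
  obtain ⟨δ, hδ, hδ0⟩ := (ev.and hpos').exists
  refine ⟨e, hze, t1 + δ, ?_, hδ⟩
  have : t1 * z e = - y e := by
    have hne : (- z e) ≠ 0 := by linarith
    have h3 : t1 * (- z e) = y e := div_mul_cancel₀ _ hne
    linarith
  have h2 : δ * z e < 0 := mul_neg_of_pos_of_neg hδ0 hze
  linarith [add_mul t1 δ (z e)]

lemma rk_mono (L : Submodule ℝ (ι → ℝ)) {A B : Finset ι} (h : A ⊆ B) : rk L A ≤ rk L B := by
  have := Submodule.finrank_mono (Lz_anti L h)
  simp only [rk]; omega

lemma rk_nonneg (L : Submodule ℝ (ι → ℝ)) (A : Finset ι) : 0 ≤ rk L A := by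
  have := rk_mono L (empty_subset A)
  rwa [rk_empty] at this

lemma rk_insert_le (L : Submodule ℝ (ι → ℝ)) (A : Finset ι) (i : ι) :
    rk L (insert i A) ≤ rk L A + 1 := by
  let ρ : (Lz L A) →ₗ[ℝ] ℝ :=
    { toFun := fun y => (y : ι → ℝ) i
      map_add' := by intro a b; rfl
      map_smul' := by intro c a; rfl }
  have hker : finrank ℝ (LinearMap.ker ρ) ≤ finrank ℝ (Lz L (insert i A)) := by
    let φ : LinearMap.ker ρ →ₗ[ℝ] (Lz L (insert i A)) :=
      { toFun := fun y => ⟨(y : Lz L A), by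
          have h1 := y.1.2
          have h2 := y.2
          rw [LinearMap.mem_ker] at h2
          refine ⟨h1.1, fun j hj => ?_⟩
          rcases mem_insert.mp hj with rfl | hj
          · exact h2
          · exact h1.2 j hj⟩
        map_add' := by intro a b; rfl
        map_smul' := by intro c a; rfl }
    refine LinearMap.finrank_le_finrank_of_injective (f := φ) ?_
    intro a b hab
    have : ((a : Lz L A) : ι → ℝ) = ((b : Lz L A) : ι → ℝ) :=
      congrArg (fun z : Lz L (insert i A) => (z : ι → ℝ)) hab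
    exact Subtype.ext (Subtype.ext this)
  have hrn := LinearMap.finrank_range_add_finrank_ker ρ
  have h1 : finrank ℝ (LinearMap.range ρ) ≤ 1 := by
    have := Submodule.finrank_le (LinearMap.range ρ)
    rwa [finrank_self] at this
  simp only [rk]
  omega

lemma rk_le_card (L : Submodule ℝ (ι → ℝ)) (A : Finset ι) : rk L A ≤ A.card := by
  induction A using Finset.induction_on with
  | empty => simp [rk_empty]
  | insert i A hi ih =>
    rw [card_insert_of_notMem hi]
    have := rk_insert_le L A i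
    push_cast
    linarith

lemma rk_insert_gt (L : Submodule ℝ (ι → ℝ)) (A : Finset ι) (e : ι) (z : ι → ℝ)
    (hz : z ∈ Lz L A) (hze : z e ≠ 0) : rk L A + 1 ≤ rk L (insert e A) := by
  have hlt : Lz L (insert e A) < Lz L A := by
    refine lt_of_le_of_ne (Lz_anti L (subset_insert _ _)) ?_
    intro heq
    rw [← heq] at hz
    exact hze (hz.2 e (mem_insert_self _ _))
  have := Submodule.finrank_lt_finrank_of_lt hlt
  simp only [rk]
  omega

/-- The setting: positive weights, no zero coordinate, no two positively proportional coordinates. -/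
structure Nice (L : Submodule ℝ (ι → ℝ)) : Prop where
  wt : ∃ w : ι → ℝ, (∀ i, 0 < w i) ∧ ∀ y ∈ L, ∑ i, w i * y i = 0
  noloop : ∀ i, ∃ y ∈ L, y i ≠ 0
  dist : ∀ i j, i ≠ j → ∀ c : ℝ, 0 < c → ∃ y ∈ L, y j ≠ c * y i

/-- coloops of a set -/
noncomputable def col (L : Submodule ℝ (ι → ℝ)) (A : Finset ι) : Finset ι :=
  open Classical in A.filter (fun e => rk L (A.erase e) < rk L A)

lemma mem_col (L : Submodule ℝ (ι → ℝ)) (A : Finset ι) (e : ι) :
    e ∈ col L A ↔ e ∈ A ∧ rk L (A.erase e) < rk L A := by simp [col]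

lemma exists_nz (L : Submodule ℝ (ι → ℝ)) (h : Nice L) : ∃ y ∈ L, ∀ i, y i ≠ 0 := by
  classical
  obtain ⟨y, hy, -, h2⟩ := perturb L 0 L.zero_mem
    (univ.image (fun i : ι => (LinearMap.proj i : (ι → ℝ) →ₗ[ℝ] ℝ)))
    (by
      intro g hg
      obtain ⟨i, -, rfl⟩ := mem_image.mp hg
      obtain ⟨v, hv, hvi⟩ := h.noloop i
      exact ⟨v, hv, hvi⟩)
  refine ⟨y, hy, fun i => ?_⟩
  exact h2 _ (mem_image_of_mem _ (mem_univ i))

lemma star (L : Submodule ℝ (ι → ℝ)) (h : Nice L) (M : ℤ)
    (hmax : ∀ y ∈ L, (∀ i, y i ≠ 0) → rk L (pos y) + rk L (neg y) ≤ M)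
    (y : ι → ℝ) (hy : y ∈ L) (hnz : ∀ i, y i ≠ 0) (hM : rk L (pos y) + rk L (neg y) = M)
    (z : ι → ℝ) (hz : z ∈ Lz L (neg y)) (hz0 : z ≠ 0) :
    ∃ e ∈ col L (pos y), z e < 0 ∧ ∃ y'' ∈ L, (∀ i, y'' i ≠ 0) ∧
      pos y'' = (pos y).erase e ∧ neg y'' = insert e (neg y) := by
  classical
  obtain ⟨w, hw, hwL⟩ := h.wt
  have hex : ∃ i, z i < 0 := by
    by_contra hcon
    push Not at hcon
    apply hz0
    have hs := hwL z hz.1
    have := (Finset.sum_eq_zero_iff_of_nonneg (fun i _ => mul_nonneg (hw i).le (hcon i))).mp hs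
    ext i
    have h1 := this i (mem_univ i)
    rcases mul_eq_zero.mp h1 with h2 | h2
    · exact absurd h2 (hw i).ne'
    · exact h2
  let g : ι × ι → ((ι → ℝ) →ₗ[ℝ] ℝ) := fun p =>
    z p.2 • (LinearMap.proj p.1 : (ι → ℝ) →ₗ[ℝ] ℝ) - z p.1 • (LinearMap.proj p.2 : (ι → ℝ) →ₗ[ℝ] ℝ)
  obtain ⟨y', hy', h1, h2⟩ := perturb L y hy
    ((univ.filter (fun p : ι × ι => p.1 ≠ p.2 ∧ z p.1 < 0 ∧ z p.2 < 0)).image g)
    (by
      intro f hf
      obtain ⟨p, hp, rfl⟩ := mem_image.mp hf
      obtain ⟨-, hne, hp1, hp2⟩ := mem_filter.mp hp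
      obtain ⟨v, hv, hvne⟩ := h.dist p.1 p.2 hne (z p.2 / z p.1) (div_pos_of_neg_of_neg hp2 hp1)
      refine ⟨v, hv, ?_⟩
      simp only [g, LinearMap.sub_apply, LinearMap.smul_apply, LinearMap.proj_apply, smul_eq_mul]
      intro heq
      apply hvne
      rw [div_mul_eq_mul_div, eq_div_iff hp1.ne]
      linarith)
  have hnz' : ∀ i, y' i ≠ 0 := by
    intro i hi
    have := h1 i (hnz i)
    rw [hi, mul_zero] at this
    exact lt_irrefl _ this
  have hs1 : ∀ i, (0 < y' i ↔ 0 < y i) := fun i => (pos_iff_pos_of_mul_pos (h1 i (hnz i))).symm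
  have hs2 : ∀ i, (y' i < 0 ↔ y i < 0) := fun i => (neg_iff_neg_of_mul_pos (h1 i (hnz i))).symm
  obtain ⟨e, hze, t, ht1, ht2⟩ := flip y' z hnz'
    (by
      intro i hi
      exact hz.2 i ((mem_neg y i).mpr ((hs2 i).mp hi)))
    hex
    (by
      intro i j hij hzi hzj
      have := h2 (g (i, j)) (mem_image_of_mem _ (by simp [hij, hzi, hzj]))
      simp only [g, LinearMap.sub_apply, LinearMap.smul_apply, LinearMap.proj_apply,
        smul_eq_mul] at this
      intro heq
      apply this
      linarith)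
  have hye : 0 < y e := by
    rcases lt_or_gt_of_ne (hnz e) with h' | h'
    · have := hz.2 e ((mem_neg y e).mpr h')
      rw [this] at hze
      exact absurd hze (lt_irrefl _)
    · exact h'
  have hsg : ∀ i, i ≠ e → 0 < y i * (y' i + t * z i) := by
    intro i hi
    have a := h1 i (hnz i)
    have b := ht2 i hi
    have c : 0 < (y i * y' i) * (y' i * (y' i + t * z i)) := mul_pos a b
    have d : (y i * y' i) * (y' i * (y' i + t * z i)) = (y' i)^2 * (y i * (y' i + t * z i)) := by
      ring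
    rw [d] at c
    have hy2 : 0 < (y' i)^2 := by
      have := hnz' i
      positivity
    exact (mul_pos_iff_of_pos_left hy2).mp c
  have hnz'' : ∀ i, (y' + t • z) i ≠ 0 := by
    intro i
    simp only [Pi.add_apply, Pi.smul_apply, smul_eq_mul]
    by_cases hi : i = e
    · subst hi; exact ht1.ne
    · intro h0
      have := hsg i hi
      rw [h0, mul_zero] at this
      exact lt_irrefl _ this
  have hL'' : y' + t • z ∈ L := L.add_mem hy' (L.smul_mem _ hz.1)
  have hpos'' : pos (y' + t • z) = (pos y).erase e := by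
    ext i
    rw [mem_erase, mem_pos, mem_pos]
    simp only [Pi.add_apply, Pi.smul_apply, smul_eq_mul]
    by_cases hi : i = e
    · subst hi
      constructor
      · intro h; linarith
      · rintro ⟨h, -⟩; exact absurd rfl h
    · rw [← pos_iff_pos_of_mul_pos (hsg i hi)]
      exact ⟨fun h => ⟨hi, h⟩, fun h => h.2⟩
  have hneg'' : neg (y' + t • z) = insert e (neg y) := by
    ext i
    rw [mem_insert, mem_neg, mem_neg]
    simp only [Pi.add_apply, Pi.smul_apply, smul_eq_mul]
    by_cases hi : i = e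
    · subst hi
      exact ⟨fun _ => Or.inl rfl, fun _ => ht1⟩
    · rw [← neg_iff_neg_of_mul_pos (hsg i hi)]
      exact ⟨fun h => Or.inr h, fun h => h.resolve_left hi⟩
  refine ⟨e, ?_, hze, y' + t • z, hL'', hnz'', hpos'', hneg''⟩
  rw [mem_col]
  refine ⟨(mem_pos y e).mpr hye, ?_⟩
  have a := hmax _ hL'' hnz''
  rw [hpos'', hneg''] at a
  have b := rk_insert_gt L (neg y) e z hz hze.ne
  linarith

lemma count (L : Submodule ℝ (ι → ℝ)) (h : Nice L) (M : ℤ)
    (hmax : ∀ y ∈ L, (∀ i, y i ≠ 0) → rk L (pos y) + rk L (neg y) ≤ M)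
    (y : ι → ℝ) (hy : y ∈ L) (hnz : ∀ i, y i ≠ 0) (hM : rk L (pos y) + rk L (neg y) = M)
    (hlt : rk L (neg y) < finrank ℝ L) :
    (finrank ℝ L : ℤ) - rk L (neg y) + 1 ≤ (col L (pos y)).card := by
  classical
  by_contra hcon
  push Not at hcon
  set C := col L (pos y) with hC
  have hdim : (C.card : ℤ) ≤ finrank ℝ (Lz L (neg y)) := by
    simp only [rk] at hcon
    omega
  have hpos1 : 1 ≤ finrank ℝ (Lz L (neg y)) := by
    simp only [rk] at hlt
    omega
  let ρ : (Lz L (neg y)) →ₗ[ℝ] (C → ℝ) :=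
    { toFun := fun z i => (z : ι → ℝ) i
      map_add' := by intro a b; rfl
      map_smul' := by intro c a; rfl }
  have key : ∃ z : Lz L (neg y), z ≠ 0 ∧ ∀ e ∈ C, 0 ≤ (z : ι → ℝ) e := by
    by_cases hinj : Function.Injective ρ
    · have h1 : finrank ℝ (Lz L (neg y)) ≤ finrank ℝ (C → ℝ) :=
        LinearMap.finrank_le_finrank_of_injective hinj
      have h2 : finrank ℝ (C → ℝ) = C.card := by simp
      have h3 : finrank ℝ (Lz L (neg y)) = finrank ℝ (C → ℝ) := by
        rw [h2] at h1 ⊢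
        omega
      have hsurj : Function.Surjective ρ :=
        (LinearMap.injective_iff_surjective_of_finrank_eq_finrank h3).mp hinj
      obtain ⟨z, hz⟩ := hsurj (fun _ => 1)
      refine ⟨z, ?_, ?_⟩
      · intro h0
        rw [h0, map_zero] at hz
        have hCne : 0 < C.card := by rw [h2] at h3; omega
        obtain ⟨e, he⟩ := card_pos.mp hCne
        have := congrFun hz ⟨e, he⟩
        simp at this
      · intro e he
        have := congrFun hz ⟨e, he⟩
        have h' : (z : ι → ℝ) e = 1 := this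
        rw [h']; norm_num
    · rw [← LinearMap.ker_eq_bot] at hinj
      obtain ⟨z, hz, hz0⟩ := (Submodule.ne_bot_iff _).mp hinj
      refine ⟨z, hz0, ?_⟩
      intro e he
      have := congrFun (LinearMap.mem_ker.mp hz) ⟨e, he⟩
      have h' : (z : ι → ℝ) e = 0 := this
      rw [h']
  obtain ⟨z, hz0, hz⟩ := key
  obtain ⟨e, he, hze, -⟩ := star L h M hmax y hy hnz hM z z.2 (by
    intro h0
    exact hz0 (Subtype.ext h0))
  have := hz e he
  linarith

lemma col_erase (L : Submodule ℝ (ι → ℝ)) (A : Finset ι) (e : ι) (he : e ∈ col L A) :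
    (col L A).erase e ⊆ col L (A.erase e) := by
  intro f hf
  rw [mem_erase] at hf
  obtain ⟨hfe, hf⟩ := hf
  rw [mem_col] at hf he ⊢
  refine ⟨mem_erase.mpr ⟨hfe, hf.1⟩, ?_⟩
  have h1 := rk_sub L (A.erase e) (A.erase f)
  have e1 : A.erase e ∪ A.erase f = A := by
    ext x
    simp only [mem_union, mem_erase]
    constructor
    · rintro (h | h) <;> exact h.2
    · intro h
      by_cases hx : x = e
      · right; exact ⟨by rw [hx]; exact (Ne.symm hfe), h⟩
      · left; exact ⟨hx, h⟩
  have e2 : A.erase e ∩ A.erase f = (A.erase e).erase f := by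
    ext x
    simp only [mem_inter, mem_erase]
    tauto
  rw [e1, e2] at h1
  omega

/-- Key Lemma. -/
theorem KL (L : Submodule ℝ (ι → ℝ)) (h : Nice L) (M : ℤ)
    (hmax : ∀ y ∈ L, (∀ i, y i ≠ 0) → rk L (pos y) + rk L (neg y) ≤ M)
    (hat : ∃ y ∈ L, (∀ i, y i ≠ 0) ∧ rk L (pos y) + rk L (neg y) = M)
    (hlt : M < 2 * finrank ℝ L) :
    ∃ y ∈ L, (∀ i, y i ≠ 0) ∧ rk L (pos y) + rk L (neg y) = M ∧
      (finrank ℝ L : ℤ) - rk L (neg y) + 1 ≤ (col L (pos y)).card ∧
      (finrank ℝ L : ℤ) - rk L (pos y) + 1 ≤ (col L (neg y)).card := by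
  classical
  -- reduce to rk neg < finrank
  have hat' : ∃ y ∈ L, (∀ i, y i ≠ 0) ∧ rk L (pos y) + rk L (neg y) = M ∧
      rk L (neg y) < finrank ℝ L := by
    obtain ⟨y, hy, hnz, hM⟩ := hat
    by_cases hc : rk L (neg y) < finrank ℝ L
    · exact ⟨y, hy, hnz, hM, hc⟩
    · refine ⟨-y, L.neg_mem hy, fun i => by simpa using hnz i, ?_, ?_⟩
      · rw [pos_neg_eq, neg_neg_eq, add_comm]; exact hM
      · rw [neg_neg_eq]
        have := rk_le L (neg y)
        omega
  obtain ⟨y, hy, hnz, hM, hc⟩ := hat'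
  have hcount := count L h M hmax y hy hnz hM hc
  have hLz : ∃ z ∈ Lz L (neg y), z ≠ 0 := by
    have : 0 < finrank ℝ (Lz L (neg y)) := by
      simp only [rk] at hc; omega
    have := Module.finrank_pos_iff.mp this
    obtain ⟨z, hz⟩ := exists_ne (0 : Lz L (neg y))
    exact ⟨z, z.2, fun h0 => hz (Subtype.ext h0)⟩
  obtain ⟨z, hz, hz0⟩ := hLz
  obtain ⟨e, he, hze, y'', hy'', hnz'', hp'', hn''⟩ := star L h M hmax y hy hnz hM z hz hz0
  have hA : rk L (pos y'') = rk L (pos y) - 1 := by
    rw [hp'']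
    have h1 := ((mem_col L _ e).mp he).2
    have h2 := rk_insert_le L ((pos y).erase e) e
    rw [insert_erase ((mem_col L _ e).mp he).1] at h2
    omega
  have hB : rk L (neg y'') = rk L (neg y) + 1 := by
    rw [hn'']
    have h1 := rk_insert_gt L (neg y) e z hz hze.ne
    have h2 := rk_insert_le L (neg y) e
    omega
  have hM'' : rk L (pos y'') + rk L (neg y'') = M := by rw [hA, hB]; omega
  refine ⟨y'', hy'', hnz'', hM'', ?_, ?_⟩
  · have h1 := card_le_card (col_erase L (pos y) e he)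
    rw [card_erase_of_mem he] at h1
    rw [← hp''] at h1
    rw [hB]
    have h2 : 1 ≤ (col L (pos y)).card := card_pos.mpr ⟨e, he⟩
    omega
  · have h1 := count L h M hmax (-y'') (L.neg_mem hy'') (fun i => by simpa using hnz'' i)
      (by rw [pos_neg_eq, neg_neg_eq, add_comm]; exact hM'')
      (by
        rw [neg_neg_eq, hA]
        have := rk_le L (pos y)
        omega)
    rw [pos_neg_eq, neg_neg_eq] at h1
    exact h1

/-- Removing coloops lowers the rank by their number. -/
lemma rk_sdiff_col (L : Submodule ℝ (ι → ℝ)) (A : Finset ι) (C : Finset ι) (hC : C ⊆ col L A) :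
    rk L (A \ C) ≤ rk L A - C.card := by
  induction C using Finset.induction_on with
  | empty => simp
  | insert f C hf ih =>
    have ih' := ih (fun x hx => hC (mem_insert_of_mem hx))
    have hfc := (mem_col L A f).mp (hC (mem_insert_self _ _))
    have h1 := rk_sub L (A \ C) (A.erase f)
    have e1 : A \ C ∪ A.erase f = A := by
      ext x
      simp only [mem_union, Finset.mem_sdiff, mem_erase]
      constructor
      · rintro (h | h)
        · exact h.1
        · exact h.2
      · intro h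
        by_cases hx : x = f
        · left; exact ⟨h, by rw [hx]; exact hf⟩
        · right; exact ⟨hx, h⟩
    have e2 : (A \ C) ∩ A.erase f = A \ insert f C := by
      ext x
      simp only [mem_inter, Finset.mem_sdiff, mem_erase, mem_insert]
      tauto
    rw [e1, e2] at h1
    rw [card_insert_of_notMem hf]
    push_cast
    omega

/-- There is a maximal sign pattern. -/
lemma exists_max (L : Submodule ℝ (ι → ℝ)) (h : Nice L) :
    ∃ y ∈ L, (∀ i, y i ≠ 0) ∧ ∀ y' ∈ L, (∀ i, y' i ≠ 0) →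
      rk L (pos y') + rk L (neg y') ≤ rk L (pos y) + rk L (neg y) := by
  classical
  obtain ⟨y₀, hy₀, hnz₀⟩ := exists_nz L h
  obtain ⟨p, hp, hmax⟩ := Finset.exists_max_image
    (univ.filter (fun p : Finset ι × Finset ι => ∃ y ∈ L, (∀ i, y i ≠ 0) ∧ pos y = p.1 ∧ neg y = p.2))
    (fun p => rk L p.1 + rk L p.2) ⟨(pos y₀, neg y₀), by
      rw [mem_filter]
      exact ⟨mem_univ _, y₀, hy₀, hnz₀, rfl, rfl⟩⟩
  obtain ⟨-, y, hy, hnz, h1, h2⟩ := mem_filter.mp hp
  refine ⟨y, hy, hnz, ?_⟩
  intro y' hy' hnz'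
  rw [h1, h2]
  exact hmax (pos y', neg y') (by
    rw [mem_filter]
    exact ⟨mem_univ _, y', hy', hnz', rfl, rfl⟩)

lemma card_pos_neg (y : ι → ℝ) (hnz : ∀ i, y i ≠ 0) :
    (pos y).card + (neg y).card = Fintype.card ι := by
  classical
  rw [← card_union_of_disjoint, ← card_univ]
  · congr 1
    ext i
    simp only [mem_union, mem_pos, mem_neg, mem_univ, iff_true]
    rcases lt_or_gt_of_ne (hnz i) with h | h
    · right; exact h
    · left; exact h
  · rw [disjoint_left]
    intro i hi hj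
    rw [mem_pos] at hi
    rw [mem_neg] at hj
    linarith

lemma col_subset (L : Submodule ℝ (ι → ℝ)) (A : Finset ι) : col L A ⊆ A := by
  intro x hx
  exact ((mem_col L A x).mp hx).1

end Pool.Agent.Helper894.Div.KL
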