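import Mathlib
import Pool.Agent.Helper894.Div.Core
import Pool.Agent.Helper894.Div.KL
import Pool.Agent.Helper894.Div.Dep

set_option autoImplicit false

/-! The upper bound for `(2,k)`-divisibility of sets without `2k+2` points in a `k`-flat.
`Div2.mono` and `finrank_sub` are adapted from helper137's modules for the sibling problem. -/

namespace Pool.Agent.Helper894.Div.Main

open Finset Module Filter Topology Pool.Agent.Helper894.Div.Core Pool.Agent.Helper894.Div.KL
  Pool.Agent.Helper894.Div.Dep

section Abs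
variable {ι : Type*} [Fintype ι] [DecidableEq ι]

lemma rk_union_le (L : Submodule ℝ (ι → ℝ)) (A B : Finset ι) :
    rk L (A ∪ B) ≤ rk L A + B.card := by
  have h1 := rk_sub L A B
  have h2 := rk_nonneg L (A ∩ B)
  have h3 := rk_le_card L B
  linarith

/-- Abstract form of the hypothesis that no `2k+2` points lie in a `k`-flat. -/
def HypA (L : Submodule ℝ (ι → ℝ)) (k : ℕ) : Prop :=
  ∀ A : Finset ι, A.card + (2 * k + 2) = Fintype.card ι → (finrank ℝ L : ℤ) - rk L A ≤ k

lemma exc_large (L : Submodule ℝ (ι → ℝ)) (k : ℕ) (h : HypA L k)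
    (hn : 2 * k + 2 ≤ Fintype.card ι) (A : Finset ι)
    (he : (k : ℤ) + 1 ≤ (finrank ℝ L : ℤ) - rk L A) :
    ((finrank ℝ L : ℤ) - rk L A) + k + 2 + A.card ≤ Fintype.card ι := by
  rcases le_total (A.card + (2 * k + 2)) (Fintype.card ι) with hc | hc
  · obtain ⟨A', hA, -, hc'⟩ := exists_subsuperset_card_eq (subset_univ A)
      (show A.card ≤ Fintype.card ι - (2 * k + 2) by omega)
      (show Fintype.card ι - (2 * k + 2) ≤ (univ : Finset ι).card by rw [card_univ]; omega)
    have h1 := h A' (by omega)
    have h2 := rk_union_le L A (A' \ A)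
    rw [union_sdiff_of_subset hA, card_sdiff_of_subset hA] at h2
    have h3 := card_le_card hA
    push_cast [Nat.cast_sub h3] at h2
    omega
  · exfalso
    obtain ⟨A', hA, hc'⟩ := exists_subset_card_eq
      (show Fintype.card ι - (2 * k + 2) ≤ A.card by omega)
    have h1 := h A' (by omega)
    have h2 := rk_mono L hA
    omega

theorem nice_case (L : Submodule ℝ (ι → ℝ)) (h : Nice L) (k : ℕ) (hk : 3 ≤ k)
    (hyp : HypA L k) (hn : 2 * k + 4 ≤ Fintype.card ι)
    (hc : Fintype.card ι + 2 * k ≤ 2 * finrank ℝ L + 5) :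
    ∃ y ∈ L, (∀ i, y i ≠ 0) ∧ (finrank ℝ L : ℤ) + k + 1 ≤ rk L (pos y) + rk L (neg y) := by
  classical
  by_contra hcon
  push Not at hcon
  obtain ⟨y₀, hy₀, hnz₀, hmax⟩ := exists_max L h
  have hM := hcon y₀ hy₀ hnz₀
  obtain ⟨y, hy, hnz, hyM, hA, hB⟩ := KL L h _ hmax ⟨y₀, hy₀, hnz₀, rfl⟩ (by omega)
  have rA := rk_sdiff_col L (pos y) (col L (pos y)) (Subset.refl _)
  have rB := rk_sdiff_col L (neg y) (col L (neg y)) (Subset.refl _)
  have cA : (pos y \ col L (pos y)).card + (col L (pos y)).card = (pos y).card :=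
    card_sdiff_add_card_eq_card (col_subset L _)
  have cB : (neg y \ col L (neg y)).card + (col L (neg y)).card = (neg y).card :=
    card_sdiff_add_card_eq_card (col_subset L _)
  have cT := card_pos_neg y hnz
  have hdis : Disjoint (pos y \ col L (pos y)) (neg y \ col L (neg y)) := by
    rw [disjoint_left]
    intro i hi hj
    have h1 := (mem_pos y i).mp (Finset.mem_sdiff.mp hi).1
    have h2 := (mem_neg y i).mp (Finset.mem_sdiff.mp hj).1
    linarith
  have hcu := card_union_of_disjoint hdis
  have hsub := rk_sub L (pos y \ col L (pos y)) (neg y \ col L (neg y))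
  have hnn := rk_nonneg L ((pos y \ col L (pos y)) ∩ (neg y \ col L (neg y)))
  have e3 := exc_large L k hyp (by omega)
    ((pos y \ col L (pos y)) ∪ (neg y \ col L (neg y)))
  have e1 := exc_large L k hyp (by omega) (pos y \ col L (pos y))
  have e2 := exc_large L k hyp (by omega) (neg y \ col L (neg y))
  omega

end Abs

variable {E : Type} [NormedAddCommGroup E] [NormedSpace ℝ E] [DecidableEq E]

lemma Div2.mono [FiniteDimensional ℝ E] {k : ℕ} {S T : Finset E} (h : Div2 k T) (hT : T ⊆ S) :
    Div2 k S := by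
  obtain ⟨A, B, hAB, hd, hne, hk⟩ := h
  have hsub : convexHull ℝ (A : Set E) ∩ convexHull ℝ (B : Set E) ⊆
      convexHull ℝ ((A ∪ (S \ T) : Finset E) : Set E) ∩ convexHull ℝ (B : Set E) := by
    apply Set.inter_subset_inter_left
    apply convexHull_mono
    rw [coe_union]
    exact Set.subset_union_left
  refine ⟨A ∪ (S \ T), B, ?_, ?_, hne.mono hsub, hk.trans ?_⟩
  · ext x
    have h1 : x ∈ A ∪ B ↔ x ∈ T := by rw [hAB]
    rw [mem_union] at h1
    simp only [mem_union, Finset.mem_sdiff]
    constructor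
    · rintro ((h | h) | h)
      · exact hT (h1.mp (Or.inl h))
      · exact h.1
      · exact hT (h1.mp (Or.inr h))
    · intro hx
      by_cases hxT : x ∈ T
      · rcases h1.mpr hxT with h | h
        · left; left; exact h
        · right; exact h
      · left; right; exact ⟨hx, hxT⟩
  · rw [disjoint_union_left]
    refine ⟨hd, ?_⟩
    rw [disjoint_left]
    intro x hx hxB
    rw [Finset.mem_sdiff] at hx
    apply hx.2
    rw [← hAB]
    exact mem_union_right _ hxB
  · exact Submodule.finrank_mono (vectorSpan_mono ℝ hsub)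

lemma finrank_sub (S : Finset E) (P : Finset S) :
    finrank ℝ (Lz (dep S) P) ≤ finrank ℝ (dep (S \ pts S P)) := by
  classical
  have hsum : ∀ (M : Type) [AddCommMonoid M] (g : S → M), (∀ i ∈ P, g i = 0) →
      ∑ t : (S \ pts S P : Finset E), g ⟨t, (Finset.mem_sdiff.mp t.2).1⟩ = ∑ i : S, g i := by
    intro M _ g hg
    let F : E → M := fun x => if h : x ∈ S then g ⟨x, h⟩ else 0
    have h1 : ∑ i : S, g i = ∑ x ∈ S, F x := by
      rw [← Finset.sum_coe_sort S F]
      apply Finset.sum_congr rfl
      intro i _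
      simp [F]
    have h2 : ∑ t : (S \ pts S P : Finset E), g ⟨t, (Finset.mem_sdiff.mp t.2).1⟩ =
        ∑ x ∈ S \ pts S P, F x := by
      rw [← Finset.sum_coe_sort (S \ pts S P) F]
      apply Finset.sum_congr rfl
      intro i _
      have : (i : E) ∈ S := (Finset.mem_sdiff.mp i.2).1
      simp [F, this]
    rw [h1, h2]
    apply sum_subset sdiff_subset
    intro x hx hx'
    rw [Finset.mem_sdiff] at hx'
    push Not at hx'
    obtain ⟨i, hi, hix⟩ := (mem_pts S P x).mp (hx' hx)
    have : F x = g ⟨x, hx⟩ := by simp [F, hx]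
    rw [this]
    have e : (⟨x, hx⟩ : S) = i := Subtype.ext hix.symm
    rw [e]
    exact hg i hi
  let φ : Lz (dep S) P →ₗ[ℝ] dep (S \ pts S P) :=
    { toFun := fun z => ⟨fun t => (z : S → ℝ) ⟨t, (Finset.mem_sdiff.mp t.2).1⟩, by
        obtain ⟨hz1, hz2⟩ := (mem_dep S _).mp z.2.1
        rw [mem_dep]
        constructor
        · rw [hsum ℝ (fun i => (z : S → ℝ) i) z.2.2]
          exact hz1
        · rw [hsum E (fun i => (z : S → ℝ) i • (i : E)) (fun i hi => by rw [z.2.2 i hi, zero_smul])]
          exact hz2⟩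
      map_add' := by intro a b; rfl
      map_smul' := by intro c a; rfl }
  refine LinearMap.finrank_le_finrank_of_injective (f := φ) ?_
  intro a b hab
  apply Subtype.ext
  ext i
  by_cases hi : i ∈ P
  · rw [a.2.2 i hi, b.2.2 i hi]
  · have hi' : (i : E) ∈ S \ pts S P := by
      rw [Finset.mem_sdiff]
      refine ⟨i.2, ?_⟩
      intro hc
      obtain ⟨j, hj, hji⟩ := (mem_pts S P _).mp hc
      have : j = i := Subtype.ext hji
      exact hi (this ▸ hj)
    have := congrArg (fun z : dep (S \ pts S P) => (z : (S \ pts S P : Finset E) → ℝ) ⟨i, hi'⟩) hab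
    exact this

/-- No `2k+2` points of `S` lie in a `k`-flat, in terms of affine dependencies. -/
def HypG (k : ℕ) (S : Finset E) : Prop :=
  ∀ T ⊆ S, T.card = 2 * k + 2 → finrank ℝ (dep T) ≤ k

lemma HypG.mono {k : ℕ} {S T : Finset E} (h : HypG k S) (hT : T ⊆ S) : HypG k T :=
  fun U hU => h U (hU.trans hT)

lemma card_sdiff_pts (S : Finset E) (A : Finset S) : (S \ pts S A).card + A.card = S.card := by
  have h1 : pts S A ⊆ S := by
    intro x hx
    obtain ⟨i, _, rfl⟩ := (mem_pts S A x).mp hx
    exact i.2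
  have h2 : (pts S A).card = A.card := card_image_of_injective _ Subtype.val_injective
  rw [card_sdiff_of_subset h1, h2]
  have := card_le_card h1
  omega

lemma hypA_of_hypG (k : ℕ) (S : Finset E) (h : HypG k S) : HypA (dep S) k := by
  intro A hA
  have h1 := finrank_sub S A
  have h2 := h (S \ pts S A) sdiff_subset (by
    have := card_sdiff_pts S A
    rw [Fintype.card_coe] at hA
    omega)
  simp only [rk]
  omega

variable [FiniteDimensional ℝ E]

theorem recD (k : ℕ) (hk : 3 ≤ k) : ∀ n : ℕ, ∀ S : Finset E, S.card = n → HypG k S →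
    2 * k + 2 ≤ S.card → S.card + 2 * k ≤ 2 * finrank ℝ (dep S) + 5 → Div2 k S := by
  classical
  intro n
  induction n using Nat.strong_induction_on with
  | _ n ih =>
  intro S hSn hS hl hn
  have hLz1 : ∀ x : S, finrank ℝ (dep S) ≤ finrank ℝ (Lz (dep S) {x}) + 1 := by
    intro x
    have := rk_insert_le (dep S) ∅ x
    have e1 : (insert x ∅ : Finset S) = {x} := by ext z; simp
    rw [rk_empty, e1] at this
    simp only [rk] at this
    omega
  have hl2 : 2 * k + 4 ≤ S.card := by
    by_contra hlt
    have hcases : S.card = 2 * k + 2 ∨ S.card = 2 * k + 3 := by omega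
    rcases hcases with hc | hc
    · have := hS S (Subset.refl _) hc
      omega
    · obtain ⟨x, hx⟩ : S.Nonempty := card_pos.mp (by omega)
      have h1 := hLz1 ⟨x, hx⟩
      have h2 := finrank_sub S {⟨x, hx⟩}
      have h3 := card_sdiff_pts S {⟨x, hx⟩}
      rw [card_singleton] at h3
      have h4 := hS _ (sdiff_subset (s := S) (t := pts S {⟨x, hx⟩})) (by omega)
      omega
  by_cases hnl : ∀ i : S, ∃ y ∈ dep S, y i ≠ 0
  swap
  · push Not at hnl
    obtain ⟨i, hi⟩ := hnl
    have h1 : dep S ≤ Lz (dep S) {i} := by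
      intro y hy
      refine ⟨hy, ?_⟩
      intro j hj
      rw [mem_singleton] at hj
      rw [hj]; exact hi y hy
    have h2 := Submodule.finrank_mono h1
    have h3 := finrank_sub S {i}
    have h4 := card_sdiff_pts S {i}
    rw [card_singleton] at h4
    exact Div2.mono (ih (S \ pts S {i}).card (by omega) _ rfl (hS.mono sdiff_subset) (by omega)
      (by omega)) sdiff_subset
  by_cases hdist : ∀ i j : S, i ≠ j → ∀ c : ℝ, 0 < c → ∃ y ∈ dep S, y j ≠ c * y i
  · -- nice case
    have nice : Nice (dep S) := ⟨⟨fun _ => 1, fun _ => one_pos, fun y hy => by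
      simpa using ((mem_dep S y).mp hy).1⟩, hnl, hdist⟩
    obtain ⟨y, hy, hnz, hr⟩ := nice_case (dep S) nice k hk (hypA_of_hypG k S hS)
      (by rw [Fintype.card_coe]; exact hl2) (by rw [Fintype.card_coe]; exact hn)
    exact geoDim S k (by omega) y hy hnz hr
  · push Not at hdist
    obtain ⟨i, j, hij, c, hc, hpar⟩ := hdist
    have h1 : Lz (dep S) {i} ≤ Lz (dep S) {i, j} := by
      intro y hy
      refine ⟨hy.1, ?_⟩
      intro x hx
      have hyi : y i = 0 := hy.2 i (mem_singleton_self _)
      rw [mem_insert, mem_singleton] at hx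
      rcases hx with rfl | rfl
      · exact hyi
      · rw [hpar y hy.1, hyi, mul_zero]
    have h2 := Submodule.finrank_mono h1
    have h3 := finrank_sub S {i, j}
    have h5 := hLz1 i
    have h4 := card_sdiff_pts S {i, j}
    rw [card_pair hij] at h4
    exact Div2.mono (ih (S \ pts S {i, j}).card (by omega) _ rfl (hS.mono sdiff_subset) (by omega)
      (by omega)) sdiff_subset

/-- Upper bound in terms of affine dependencies. -/
theorem upper (d k : ℕ) (hk : 3 ≤ k) (hkd : 3 ≤ d) (hE : finrank ℝ E = d) (S : Finset E)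
    (hS : HypG k S) (hc : 2 * d + 2 * k - 3 ≤ S.card) : Div2 k S := by
  obtain ⟨T, hT, hTc⟩ := exists_subset_card_eq hc
  refine Div2.mono ?_ hT
  have hdim : T.card ≤ finrank ℝ (dep T) + (d + 1) := by
    have h1 := LinearMap.finrank_range_add_finrank_ker (depMap T)
    have h2 : finrank ℝ (LinearMap.range (depMap T)) ≤ finrank ℝ (ℝ × E) :=
      Submodule.finrank_le _
    rw [Module.finrank_prod, finrank_self, hE] at h2
    have h3 : finrank ℝ (T → ℝ) = T.card := by
      rw [Module.finrank_fintype_fun_eq_card, Fintype.card_coe]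
    rw [h3] at h1
    change T.card ≤ finrank ℝ (LinearMap.ker (depMap T)) + (d + 1)
    omega
  exact recD k hk _ T rfl (hS.mono hT) (by omega) (by omega)

end Pool.Agent.Helper894.Div.Main
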