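import Mathlib
import Pool.Agent.Helper894.Div.Dep
import Pool.Agent.Helper894.Div.Main

set_option autoImplicit false

/-! From the hypothesis that no `2k+2` points lie in a `k`-flat to a bound on the space of affine
dependencies. -/

namespace Pool.Agent.Helper894.Div.Bridge

open Finset Module Pool.Agent.Helper894.Div.Dep Pool.Agent.Helper894.Div.Main

lemma extend {E : Type*} [AddCommGroup E] [Module ℝ E] [FiniteDimensional ℝ E] (k : ℕ)
    (hk : k ≤ finrank ℝ E) : ∀ m : ℕ, ∀ V : Submodule ℝ E, finrank ℝ V + m = k →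
    ∃ W : Submodule ℝ E, V ≤ W ∧ finrank ℝ W = k := by
  intro m
  induction m with
  | zero =>
    intro V hV
    exact ⟨V, le_rfl, by omega⟩
  | succ m ih =>
    intro V hV
    have hne : V ≠ ⊤ := by
      rintro rfl
      rw [finrank_top] at hV
      omega
    obtain ⟨x, hx⟩ : ∃ x, x ∉ V := by
      by_contra hcon
      push Not at hcon
      exact hne (by ext y; simp [hcon y])
    obtain ⟨W, h1, h2⟩ := ih (V ⊔ Submodule.span ℝ {x}) (by
      rw [Submodule.finrank_sup_span_singleton hx]
      omega)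
    exact ⟨W, le_sup_left.trans h1, h2⟩

variable {E : Type} [NormedAddCommGroup E] [NormedSpace ℝ E] [DecidableEq E]

lemma range_lower [FiniteDimensional ℝ E] (T : Finset E) (hT : T.Nonempty) :
    finrank ℝ (vectorSpan ℝ (T : Set E)) + 1 ≤ finrank ℝ (LinearMap.range (depMap T)) := by
  classical
  have hmem : ∀ x ∈ T, ((1 : ℝ), x) ∈ LinearMap.range (depMap T) := by
    intro x hx
    refine ⟨fun i => if i = ⟨x, hx⟩ then 1 else 0, ?_⟩
    simp [depMap]
  have hle : Submodule.map (LinearMap.inr ℝ ℝ E) (vectorSpan ℝ (T : Set E)) ≤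
      LinearMap.range (depMap T) := by
    rw [Submodule.map_le_iff_le_comap, vectorSpan_def, Submodule.span_le]
    rintro v ⟨a, ha, b, hb, rfl⟩
    have h := Submodule.sub_mem _ (hmem a ha) (hmem b hb)
    rw [SetLike.mem_coe, Submodule.mem_comap]
    have e : (LinearMap.inr ℝ ℝ E) (a -ᵥ b) = ((1 : ℝ), a) - ((1 : ℝ), b) := by
      simp
    show (LinearMap.inr ℝ ℝ E) (a -ᵥ b) ∈ _
    rw [e]
    exact h
  have hlt : Submodule.map (LinearMap.inr ℝ ℝ E) (vectorSpan ℝ (T : Set E)) <
      LinearMap.range (depMap T) := by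
    refine lt_of_le_of_ne hle ?_
    intro heq
    obtain ⟨x, hx⟩ := hT
    have h1 := hmem x hx
    rw [← heq, Submodule.mem_map] at h1
    obtain ⟨y, _, hy⟩ := h1
    have := congrArg Prod.fst hy
    simp at this
  have h1 := Submodule.finrank_lt_finrank_of_lt hlt
  have hinj : Function.Injective (LinearMap.inr ℝ ℝ E) := LinearMap.inr_injective
  have h2 := (Submodule.equivMapOfInjective (LinearMap.inr ℝ ℝ E) hinj
    (vectorSpan ℝ (T : Set E))).finrank_eq
  omega

theorem bridge [FiniteDimensional ℝ E] (k : ℕ) (hk : k ≤ finrank ℝ E) (S : Finset E)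
    (h : ∀ F : AffineSubspace ℝ E, (F : Set E).Nonempty → finrank ℝ F.direction = k →
      ∀ T ⊆ S, (∀ x ∈ T, x ∈ F) → T.card < 2 * k + 2) : HypG k S := by
  intro T hT hTc
  by_contra hcon
  have hne : T.Nonempty := card_pos.mp (by omega)
  have h1 := LinearMap.finrank_range_add_finrank_ker (depMap T)
  have h2 := range_lower T hne
  have h3 : finrank ℝ (T → ℝ) = T.card := by
    rw [Module.finrank_fintype_fun_eq_card, Fintype.card_coe]
  have h4 : finrank ℝ (dep T) = finrank ℝ (LinearMap.ker (depMap T)) := rfl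
  have h5 : finrank ℝ (vectorSpan ℝ (T : Set E)) ≤ k := by omega
  obtain ⟨W, hW, hWk⟩ := extend k hk (k - finrank ℝ (vectorSpan ℝ (T : Set E)))
    (vectorSpan ℝ (T : Set E)) (by omega)
  obtain ⟨p, hp⟩ := hne
  have h6 := h (AffineSubspace.mk' p W) ⟨p, AffineSubspace.self_mem_mk' p W⟩
    (by rw [AffineSubspace.direction_mk']; exact hWk) T hT (by
      intro x hx
      rw [AffineSubspace.mem_mk']
      exact hW (vsub_mem_vectorSpan ℝ (mem_coe.mpr hx) (mem_coe.mpr hp)))
  omega

end Pool.Agent.Helper894.Div.Bridge
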