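import Mathlib
import Pool.Agent.Helper894.Div.Dep
import Pool.Agent.Helper894.Div.Main

set_option autoImplicit false

/-! Lower bound examples. `vander`, `hull_nonneg` and `hull_nonpos` are adapted from helper137. -/

namespace Pool.Agent.Helper894.Div.Ex

open Finset Module Pool.Agent.Helper894.Div.Dep Pool.Agent.Helper894.Div.Main

lemma vander (U : Finset ℕ) (W : ℕ → ℝ) (r : ℕ) (hU : U.card ≤ r)
    (h : ∀ m < r, ∑ t ∈ U, W t * (t : ℝ) ^ m = 0) : ∀ t ∈ U, W t = 0 := by
  classical
  intro t₀ ht₀
  set p : Polynomial ℝ := ∏ t ∈ U.erase t₀, (Polynomial.X - Polynomial.C (t : ℝ)) with hp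
  have hdeg : p.natDegree < r := by
    rw [hp, Polynomial.natDegree_prod_of_monic _ _ (fun t _ => Polynomial.monic_X_sub_C _)]
    simp only [Polynomial.natDegree_X_sub_C, sum_const, smul_eq_mul, mul_one]
    rw [card_erase_of_mem ht₀]
    have : 0 < U.card := card_pos.mpr ⟨t₀, ht₀⟩
    omega
  have h1 : ∑ t ∈ U, W t * p.eval (t : ℝ) = 0 := by
    have : ∀ t ∈ U, W t * p.eval (t : ℝ) = ∑ m ∈ range r, p.coeff m * (W t * (t : ℝ) ^ m) := by
      intro t _
      rw [Polynomial.eval_eq_sum_range' hdeg, mul_sum]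
      apply sum_congr rfl
      intro m _
      ring
    rw [sum_congr rfl this, sum_comm]
    apply sum_eq_zero
    intro m hm
    rw [← mul_sum, h m (mem_range.mp hm), mul_zero]
  have h2 : ∑ t ∈ U, W t * p.eval (t : ℝ) = W t₀ * p.eval (t₀ : ℝ) := by
    apply sum_eq_single_of_mem t₀ ht₀
    intro t ht hne
    have : p.eval (t : ℝ) = 0 := by
      rw [hp, Polynomial.eval_prod]
      apply prod_eq_zero (mem_erase.mpr ⟨hne, ht⟩)
      simp
    rw [this, mul_zero]
  have h3 : p.eval (t₀ : ℝ) ≠ 0 := by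
    rw [hp, Polynomial.eval_prod]
    apply prod_ne_zero_iff.mpr
    intro t ht
    simp only [Polynomial.eval_sub, Polynomial.eval_X, Polynomial.eval_C]
    rw [sub_ne_zero]
    intro h
    exact (mem_erase.mp ht).1 (Nat.cast_injective h).symm
  rw [h1] at h2
  rcases mul_eq_zero.mp h2.symm with h | h
  · exact h
  · exact absurd h h3

variable {d : ℕ}

lemma hull_nonneg (A : Finset (EuclideanSpace ℝ (Fin d))) (m : Fin d)
    (h : ∀ x ∈ A, 0 ≤ x m) : ∀ x ∈ convexHull ℝ (A : Set (EuclideanSpace ℝ (Fin d))), 0 ≤ x m := by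
  have hc : Convex ℝ {x : EuclideanSpace ℝ (Fin d) | 0 ≤ x m} := by
    intro x hx y hy a b ha hb _
    simp only [Set.mem_ofPred_eq] at hx hy ⊢
    have : (a • x + b • y) m = a * x m + b * y m := by simp
    rw [this]
    positivity
  intro x hx
  exact convexHull_min (fun y hy => h y hy) hc hx

lemma hull_nonpos (A : Finset (EuclideanSpace ℝ (Fin d))) (m : Fin d)
    (h : ∀ x ∈ A, x m ≤ 0) : ∀ x ∈ convexHull ℝ (A : Set (EuclideanSpace ℝ (Fin d))), x m ≤ 0 := by
  have hc : Convex ℝ {x : EuclideanSpace ℝ (Fin d) | x m ≤ 0} := by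
    intro x hx y hy a b ha hb _
    simp only [Set.mem_ofPred_eq] at hx hy ⊢
    have : (a • x + b • y) m = a * x m + b * y m := by simp
    rw [this]
    nlinarith
  intro x hx
  exact convexHull_min (fun y hy => h y hy) hc hx

section Cross

/-- Coordinate vector with sign. -/
noncomputable def ev (d : ℕ) (i : Fin d) (s : ℝ) : EuclideanSpace ℝ (Fin d) :=
  WithLp.toLp 2 (fun m : Fin d => if m = i then s else 0)

lemma ev_apply (d : ℕ) (i : Fin d) (s : ℝ) (m : Fin d) : ev d i s m = if m = i then s else 0 := rfl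

/-- The centre and the vertices of the cross-polytope. -/
noncomputable def cross (d : ℕ) : Finset (EuclideanSpace ℝ (Fin d)) :=
  open Classical in insert 0 ((univ ×ˢ ({1, -1} : Finset ℝ)).image (fun p : Fin d × ℝ => ev d p.1 p.2))

lemma mem_cross (d : ℕ) (x : EuclideanSpace ℝ (Fin d)) :
    x ∈ cross d ↔ x = 0 ∨ ∃ i : Fin d, ∃ s : ℝ, (s = 1 ∨ s = -1) ∧ x = ev d i s := by
  classical
  simp only [cross, mem_insert, mem_image, mem_product, mem_univ, true_and, mem_singleton,
    Prod.exists]
  constructor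
  · rintro (h | ⟨i, s, h1, h2⟩)
    · exact Or.inl h
    · exact Or.inr ⟨i, s, h1, h2.symm⟩
  · rintro (h | ⟨i, s, h1, h2⟩)
    · exact Or.inl h
    · exact Or.inr ⟨i, s, h1, h2.symm⟩

lemma ev_inj (d : ℕ) {i j : Fin d} {s t : ℝ} (hs : s ≠ 0) (h : ev d i s = ev d j t) :
    i = j ∧ s = t := by
  have h1 := congrArg (fun x : EuclideanSpace ℝ (Fin d) => x i) h
  simp only [ev_apply, if_true] at h1
  by_cases hij : i = j
  · rw [if_pos hij] at h1
    exact ⟨hij, h1⟩
  · rw [if_neg hij] at h1
    exact absurd h1 hs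

lemma card_cross (d : ℕ) : (cross d).card = 2 * d + 1 := by
  classical
  rw [cross, card_insert_of_notMem, card_image_of_injOn, card_product, card_univ, Fintype.card_fin,
    card_pair (by norm_num)]
  · omega
  · rintro ⟨i, s⟩ h ⟨j, t⟩ h' heq
    rw [mem_coe, mem_product, mem_insert, mem_singleton] at h
    have hs : s ≠ 0 := by
      rcases h.2 with h | h <;> (dsimp only at h; rw [h]; norm_num)
    obtain ⟨h1, h2⟩ := ev_inj d hs heq
    exact Prod.ext h1 h2
  · intro h
    rw [mem_image] at h
    obtain ⟨⟨i, s⟩, h1, h2⟩ := h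
    rw [mem_product, mem_insert, mem_singleton] at h1
    have h3 := congrArg (fun x : EuclideanSpace ℝ (Fin d) => x i) h2
    simp only [ev_apply, if_true] at h3
    rcases h1.2 with h | h <;> (dsimp only at h; rw [h] at h3; simp at h3)

lemma cross_not_div (d k : ℕ) (hk : 1 ≤ k) [DecidableEq (EuclideanSpace ℝ (Fin d))] :
    ¬ Div2 k (cross d) := by
  rintro ⟨A, B, hAB, hd, hne, hK⟩
  have hdj : ∀ y, y ∈ A → y ∈ B → False := fun y h1 h2 => (disjoint_left.mp hd) h1 h2
  have hval : ∀ (m : Fin d), ∀ x ∈ A ∪ B,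
      (x m = 0) ∨ (x = ev d m 1 ∧ x m = 1) ∨ (x = ev d m (-1) ∧ x m = -1) := by
    intro m x hx
    rw [hAB, mem_cross] at hx
    rcases hx with rfl | ⟨i, s, hs, rfl⟩
    · left; rfl
    · rw [ev_apply]
      by_cases h : m = i
      · rw [if_pos h, h]
        rcases hs with rfl | rfl
        · right; left; exact ⟨rfl, rfl⟩
        · right; right; exact ⟨rfl, rfl⟩
      · left; rw [if_neg h]
  have hmemS : ∀ (m : Fin d), ∀ s : ℝ, (s = 1 ∨ s = -1) → ev d m s ∈ A ∪ B := by
    intro m s hs
    rw [hAB, mem_cross]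
    exact Or.inr ⟨m, s, hs, rfl⟩
  have hz : ∀ x ∈ convexHull ℝ (A : Set (EuclideanSpace ℝ (Fin d))) ∩
      convexHull ℝ (B : Set (EuclideanSpace ℝ (Fin d))), x = 0 := by
    rintro x ⟨hxA, hxB⟩
    ext m
    have up : x m ≤ 0 := by
      rcases mem_union.mp (hmemS m 1 (Or.inl rfl)) with h | h
      · apply hull_nonpos B m _ x hxB
        intro y hy
        rcases hval m y (mem_union_right _ hy) with h1 | ⟨h1, _⟩ | ⟨_, h1⟩
        · exact h1.le
        · exact absurd hy (fun hy' => hdj _ h (h1 ▸ hy'))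
        · rw [h1]; norm_num
      · apply hull_nonpos A m _ x hxA
        intro y hy
        rcases hval m y (mem_union_left _ hy) with h1 | ⟨h1, _⟩ | ⟨_, h1⟩
        · exact h1.le
        · exact absurd h (fun hy' => hdj _ (h1 ▸ hy) hy')
        · rw [h1]; norm_num
    have lo : 0 ≤ x m := by
      rcases mem_union.mp (hmemS m (-1) (Or.inr rfl)) with h | h
      · apply hull_nonneg B m _ x hxB
        intro y hy
        rcases hval m y (mem_union_right _ hy) with h1 | ⟨_, h1⟩ | ⟨h1, _⟩
        · exact h1.ge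
        · rw [h1]; norm_num
        · exact absurd hy (fun hy' => hdj _ h (h1 ▸ hy'))
      · apply hull_nonneg A m _ x hxA
        intro y hy
        rcases hval m y (mem_union_left _ hy) with h1 | ⟨_, h1⟩ | ⟨h1, _⟩
        · exact h1.ge
        · rw [h1]; norm_num
        · exact absurd h (fun hy' => hdj _ (h1 ▸ hy) hy')
    have : x m = 0 := le_antisymm up lo
    rw [this]; rfl
  have hsub : vectorSpan ℝ (convexHull ℝ (A : Set (EuclideanSpace ℝ (Fin d))) ∩
      convexHull ℝ (B : Set (EuclideanSpace ℝ (Fin d)))) ≤ ⊥ := by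
    rw [vectorSpan_def, Submodule.span_le]
    rintro v ⟨a, ha, b, hb, rfl⟩
    simp [hz a ha, hz b hb]
  have := Submodule.finrank_mono hsub
  rw [finrank_bot] at this
  omega

lemma card_le_finrank {ι V : Type*} [Fintype ι] [AddCommGroup V] [Module ℝ V]
    [FiniteDimensional ℝ V] (v : ι → V) (li : LinearIndependent ℝ v) (W : Submodule ℝ V)
    (h : ∀ i, v i ∈ W) : Fintype.card ι ≤ finrank ℝ W := by
  have li2 : LinearIndependent ℝ (fun i => (⟨v i, h i⟩ : W)) := by
    apply LinearIndependent.of_comp W.subtype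
    exact li
  exact li2.fintype_card_le_finrank

lemma ev_li (d : ℕ) (J : Finset (Fin d)) (s : Fin d → ℝ) (hs : ∀ i, s i ≠ 0) :
    LinearIndependent ℝ (fun i : J => ev d i (s i)) := by
  rw [Fintype.linearIndependent_iff]
  intro g hg i
  have h1 := congrArg (fun x : EuclideanSpace ℝ (Fin d) => x i) hg
  simp only [WithLp.ofLp_sum, WithLp.ofLp_smul, Finset.sum_apply, Pi.smul_apply, smul_eq_mul,
    ev_apply, PiLp.zero_apply] at h1
  rw [Finset.sum_eq_single i] at h1
  · rw [if_pos rfl] at h1
    rcases mul_eq_zero.mp h1 with h | h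
    · exact h
    · exact absurd h (hs i)
  · intro b _ hb
    rw [if_neg, mul_zero]
    intro h
    exact hb (Subtype.ext h.symm)
  · intro h
    exact absurd (mem_univ _) h

lemma ev_neg (d : ℕ) (i : Fin d) (s : ℝ) : ev d i (-s) = - ev d i s := by
  ext m
  simp only [ev_apply, PiLp.neg_apply]
  split_ifs <;> simp

lemma cross_flat (d k : ℕ) (F : AffineSubspace ℝ (EuclideanSpace ℝ (Fin d)))
    (hF : finrank ℝ F.direction = k) (T : Finset (EuclideanSpace ℝ (Fin d)))
    (hT : T ⊆ cross d) (hTF : ∀ x ∈ T, x ∈ F) : T.card ≤ 2 * k + 1 := by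
  classical
  set I : Finset (Fin d) := univ.filter (fun i => ev d i 1 ∈ T ∨ ev d i (-1) ∈ T) with hI
  by_cases h0 : (0 : EuclideanSpace ℝ (Fin d)) ∈ F
  · have hdir : ∀ x ∈ T, x ∈ F.direction := by
      intro x hx
      have := AffineSubspace.vsub_mem_direction (hTF x hx) h0
      simpa using this
    have hIk : I.card ≤ k := by
      rw [← hF, ← Fintype.card_coe]
      refine card_le_finrank _ (ev_li d I (fun _ => 1) (fun _ => one_ne_zero)) _ ?_
      intro i
      have := (mem_filter.mp i.2).2
      rcases this with h | h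
      · exact hdir _ h
      · have h2 := hdir _ h
        rw [ev_neg] at h2
        exact (Submodule.neg_mem_iff _).mp h2
    have hsub : T ⊆ insert 0 ((I ×ˢ ({1, -1} : Finset ℝ)).image
        (fun p : Fin d × ℝ => ev d p.1 p.2)) := by
      intro x hx
      rcases (mem_cross d x).mp (hT hx) with rfl | ⟨i, s, hs, rfl⟩
      · exact mem_insert_self _ _
      · apply mem_insert_of_mem
        rw [mem_image]
        refine ⟨(i, s), ?_, rfl⟩
        rw [mem_product, mem_insert, mem_singleton, mem_filter]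
        refine ⟨⟨mem_univ _, ?_⟩, hs⟩
        rcases hs with rfl | rfl
        · exact Or.inl hx
        · exact Or.inr hx
    have h1 := card_le_card hsub
    have h2 := card_insert_le (0 : EuclideanSpace ℝ (Fin d))
      ((I ×ˢ ({1, -1} : Finset ℝ)).image (fun p : Fin d × ℝ => ev d p.1 p.2))
    have h3 : ((I ×ˢ ({1, -1} : Finset ℝ)).image (fun p : Fin d × ℝ => ev d p.1 p.2)).card ≤
        (I ×ˢ ({1, -1} : Finset ℝ)).card := card_image_le
    rw [card_product, card_pair (by norm_num)] at h3
    omega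
  · -- no centre, no antipodal pair
    rcases T.eq_empty_or_nonempty with rfl | ⟨p0, hp0⟩
    · simp
    have hnot : ∀ i, ev d i 1 ∈ T → ev d i (-1) ∈ T → False := by
      intro i h1 h2
      apply h0
      have h3 := AffineMap.lineMap_mem (1 / 2 : ℝ) (hTF _ h1) (hTF _ h2)
      have h4 : AffineMap.lineMap (ev d i 1) (ev d i (-1)) (1 / 2 : ℝ) = 0 := by
        rw [AffineMap.lineMap_apply, ev_neg]
        simp only [vsub_eq_sub, vadd_eq_add]
        module
      rwa [h4] at h3
    set s : Fin d → ℝ := fun i => if ev d i 1 ∈ T then 1 else -1 with hs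
    have hsne : ∀ i, s i ≠ 0 := by
      intro i
      simp only [hs]
      split_ifs <;> norm_num
    have hIT : ∀ i ∈ I, ev d i (s i) ∈ T := by
      intro i hi
      simp only [hs]
      split_ifs with h
      · exact h
      · rcases (mem_filter.mp hi).2 with h' | h'
        · exact absurd h' h
        · exact h'
    have hsub : T ⊆ I.image (fun i => ev d i (s i)) := by
      intro x hx
      rw [mem_image]
      rcases (mem_cross d x).mp (hT hx) with rfl | ⟨i, t, ht, rfl⟩
      · exact absurd (hTF _ hx) h0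
      · refine ⟨i, ?_, ?_⟩
        · rw [mem_filter]
          refine ⟨mem_univ _, ?_⟩
          rcases ht with rfl | rfl
          · exact Or.inl hx
          · exact Or.inr hx
        · simp only [hs]
          rcases ht with rfl | rfl
          · rw [if_pos hx]
          · rw [if_neg]
            intro h
            exact hnot i h hx
    have h1 := (card_le_card hsub).trans card_image_le
    have h2 : I.card ≤ finrank ℝ (F.direction ⊔ Submodule.span ℝ {p0} : Submodule ℝ _) := by
      rw [← Fintype.card_coe]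
      refine card_le_finrank _ (ev_li d I s hsne) _ ?_
      intro i
      have h3 := AffineSubspace.vsub_mem_direction (hTF _ (hIT i i.2)) (hTF _ hp0)
      have h4 : ev d i (s i) = (ev d i (s i) -ᵥ p0) + p0 := by simp
      rw [h4]
      exact Submodule.add_mem_sup h3 (Submodule.mem_span_singleton_self p0)
    have h3 := Submodule.finrank_add_le_finrank_add_finrank F.direction (Submodule.span ℝ {p0})
    have h4 : finrank ℝ (Submodule.span ℝ {p0}) ≤ 1 := by
      refine (finrank_span_le_card (R := ℝ) {p0}).trans ?_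
      simp
    omega

end Cross

section Line

/-- Points on a line through the origin. -/
noncomputable def Pl (d : ℕ) (s : ℕ) : EuclideanSpace ℝ (Fin d) :=
  WithLp.toLp 2 (fun m : Fin d => if (m : ℕ) + 1 = d then (s : ℝ) else 0)

/-- Points on a moment curve. -/
noncomputable def Pg (d : ℕ) (t : ℕ) : EuclideanSpace ℝ (Fin d) :=
  WithLp.toLp 2 (fun m : Fin d => (t : ℝ) ^ (m : ℕ))

lemma Pl_apply (d s : ℕ) (m : Fin d) : Pl d s m = if (m : ℕ) + 1 = d then (s : ℝ) else 0 := rfl

lemma Pg_apply (d t : ℕ) (m : Fin d) : Pg d t m = (t : ℝ) ^ (m : ℕ) := rfl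

lemma Pl_smul (d s : ℕ) : Pl d s = (s : ℝ) • Pl d 1 := by
  ext m
  simp only [Pl_apply, PiLp.smul_apply, smul_eq_mul]
  split_ifs <;> simp

lemma Pl_inj (d : ℕ) (hd : 1 ≤ d) : Function.Injective (Pl d) := by
  intro s t h
  have := congrArg (fun x : EuclideanSpace ℝ (Fin d) => x ⟨d - 1, by omega⟩) h
  simp only [Pl_apply] at this
  rw [if_pos (by omega), if_pos (by omega)] at this
  exact_mod_cast this

lemma Pg_inj (d : ℕ) (hd : 2 ≤ d) : Function.Injective (Pg d) := by
  intro s t h
  have := congrArg (fun x : EuclideanSpace ℝ (Fin d) => x ⟨1, by omega⟩) h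
  simp only [Pg_apply, pow_one] at this
  exact_mod_cast this

lemma Pl_ne_Pg (d : ℕ) (hd : 2 ≤ d) (s t : ℕ) : Pl d s ≠ Pg d t := by
  intro h
  have := congrArg (fun x : EuclideanSpace ℝ (Fin d) => x ⟨0, by omega⟩) h
  simp only [Pg_apply, Pl_apply, pow_zero] at this
  rw [if_neg (by omega)] at this
  norm_num at this

/-- The line points of the second example. -/
noncomputable def lset (d k : ℕ) : Finset (EuclideanSpace ℝ (Fin d)) :=
  open Classical in (Ico 1 (k + 3)).image (Pl d)

/-- The points of the second example off the line. -/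
noncomputable def gset (d k : ℕ) : Finset (EuclideanSpace ℝ (Fin d)) :=
  open Classical in (Ico 1 (k + d - 2)).image (Pg d)

/-- The second example. -/
noncomputable def ex2 (d k : ℕ) : Finset (EuclideanSpace ℝ (Fin d)) :=
  open Classical in lset d k ∪ gset d k

lemma mem_ex2 (d k : ℕ) (x : EuclideanSpace ℝ (Fin d)) :
    x ∈ ex2 d k ↔ x ∈ lset d k ∨ x ∈ gset d k := by
  classical
  rw [ex2, mem_union]

lemma mem_lset (d k : ℕ) (x : EuclideanSpace ℝ (Fin d)) :
    x ∈ lset d k ↔ ∃ s, s ∈ Ico 1 (k + 3) ∧ Pl d s = x := by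
  classical
  rw [lset, mem_image]

lemma mem_gset (d k : ℕ) (x : EuclideanSpace ℝ (Fin d)) :
    x ∈ gset d k ↔ ∃ t, t ∈ Ico 1 (k + d - 2) ∧ Pg d t = x := by
  classical
  rw [gset, mem_image]

lemma card_lset (d k : ℕ) (hd : 1 ≤ d) : (lset d k).card = k + 2 := by
  rw [lset, card_image_of_injective _ (Pl_inj d hd), Nat.card_Ico]
  omega

lemma card_gset (d k : ℕ) (hd : 2 ≤ d) : (gset d k).card = k + d - 3 := by
  rw [gset, card_image_of_injective _ (Pg_inj d hd), Nat.card_Ico]
  omega

lemma disj_lg (d k : ℕ) (hd : 2 ≤ d) : Disjoint (lset d k) (gset d k) := by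
  rw [disjoint_left]
  intro x h1 h2
  rw [lset, mem_image] at h1
  rw [gset, mem_image] at h2
  obtain ⟨s, _, rfl⟩ := h1
  obtain ⟨t, _, h⟩ := h2
  exact Pl_ne_Pg d hd s t h.symm

lemma card_ex2 (d k : ℕ) (hd : 2 ≤ d) (hk : 1 ≤ k) : (ex2 d k).card = d + 2 * k - 1 := by
  rw [ex2, card_union_of_disjoint (disj_lg d k hd), card_lset d k (by omega), card_gset d k hd]
  omega

lemma coord_sum {ι : Type*} [Fintype ι] {d : ℕ} (g : ι → ℝ) (v : ι → EuclideanSpace ℝ (Fin d))
    (h : ∑ i, g i • v i = 0) (m : Fin d) : ∑ i, g i * v i m = 0 := by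
  have h1 := congrArg (fun x : EuclideanSpace ℝ (Fin d) => x m) h
  simpa using h1

lemma Pg_li (d : ℕ) (J : Finset ℕ) (hJ : J.card ≤ d) :
    LinearIndependent ℝ (fun t : J => Pg d t) := by
  classical
  rw [Fintype.linearIndependent_iff]
  intro g hg
  set w : ℕ → ℝ := fun t => if h : t ∈ J then g ⟨t, h⟩ else 0 with hw
  have hw' : ∀ t : J, w t = g t := by
    intro t
    simp [hw]
  have key := vander J w d hJ (by
    intro m hm
    have h1 := coord_sum g _ hg ⟨m, hm⟩
    rw [← h1, ← Finset.sum_coe_sort J]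
    apply sum_congr rfl
    intro t _
    rw [hw', Pg_apply])
  intro i
  rw [← hw']
  exact key i i.2

lemma lineG_li (d : ℕ) (hd : 1 ≤ d) (J : Finset ℕ) (hJ : J.card + 1 ≤ d) :
    LinearIndependent ℝ (fun o : Option J => o.elim (Pl d 1) (fun t => Pg d t)) := by
  classical
  rw [Fintype.linearIndependent_iff]
  intro g hg
  set w : ℕ → ℝ := fun t => if h : t ∈ J then g (some ⟨t, h⟩) else 0 with hw
  have hw' : ∀ t : J, w t = g (some t) := by
    intro t
    simp [hw]
  have key := vander J w (d - 1) (by omega) (by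
    intro m hm
    have h1 := coord_sum g _ hg ⟨m, by omega⟩
    rw [Fintype.sum_option] at h1
    simp only [Option.elim_none, Option.elim_some] at h1
    rw [Pl_apply, if_neg (by dsimp only; omega), mul_zero, zero_add] at h1
    rw [← h1, ← Finset.sum_coe_sort J]
    apply sum_congr rfl
    intro t _
    rw [hw', Pg_apply])
  have h2 : ∀ t : J, g (some t) = 0 := by
    intro t
    rw [← hw']
    exact key t t.2
  intro i
  cases i with
  | some t => exact h2 t
  | none =>
    have h1 := coord_sum g _ hg ⟨d - 1, by omega⟩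
    rw [Fintype.sum_option] at h1
    simp only [Option.elim_none, Option.elim_some, h2, zero_mul, sum_const_zero, add_zero] at h1
    rw [Pl_apply, if_pos (by dsimp only; omega)] at h1
    simpa using h1

lemma ex2_flat (d k : ℕ) (hk : 1 ≤ k) (hkd : k + 2 ≤ d)
    (F : AffineSubspace ℝ (EuclideanSpace ℝ (Fin d)))
    (hF : finrank ℝ F.direction = k) (T : Finset (EuclideanSpace ℝ (Fin d)))
    (hT : T ⊆ ex2 d k) (hTF : ∀ x ∈ T, x ∈ F) : T.card ≤ 2 * k + 1 := by
  classical
  have hTc : T.card ≤ (T ∩ lset d k).card + (T ∩ gset d k).card := by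
    have h1 : T = (T ∩ lset d k) ∪ (T ∩ gset d k) := by
      rw [← inter_union_distrib_left]
      exact (inter_eq_left.mpr hT).symm
    calc T.card = ((T ∩ lset d k) ∪ (T ∩ gset d k)).card := by rw [← h1]
      _ ≤ _ := card_union_le _ _
  set J : Finset ℕ := (Ico 1 (k + d - 2)).filter (fun t => Pg d t ∈ F) with hJ
  have hGJ : (T ∩ gset d k).card ≤ J.card := by
    refine le_trans (card_le_card ?_) (card_image_le (f := Pg d) (s := J))
    intro x hx
    rw [mem_inter, gset, mem_image] at hx
    obtain ⟨hxT, t, ht, rfl⟩ := hx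
    exact mem_image_of_mem _ (mem_filter.mpr ⟨ht, hTF _ hxT⟩)
  by_cases h2 : 2 ≤ (T ∩ lset d k).card
  · obtain ⟨x, hx, y, hy, hxy⟩ := one_lt_card.mp h2
    rw [mem_inter, lset, mem_image] at hx hy
    obtain ⟨hxT, s, _, rfl⟩ := hx
    obtain ⟨hyT, s', _, rfl⟩ := hy
    have hss : (s : ℝ) - s' ≠ 0 := by
      intro h
      apply hxy
      have : (s : ℝ) = s' := by linarith
      rw [Pl_smul d s, Pl_smul d s', this]
    have hdir0 := AffineSubspace.vsub_mem_direction (hTF _ hxT) (hTF _ hyT)
    have hdir1 : Pl d 1 ∈ F.direction := by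
      rw [Pl_smul d s, Pl_smul d s', vsub_eq_sub, ← sub_smul] at hdir0
      exact (Submodule.smul_mem_iff _ hss).mp hdir0
    have h0 : (0 : EuclideanSpace ℝ (Fin d)) ∈ F := by
      have h3 := AffineSubspace.vadd_mem_of_mem_direction
        (Submodule.smul_mem _ (-(s : ℝ)) hdir1) (hTF _ hxT)
      rw [Pl_smul d s, vadd_eq_add, ← add_smul, neg_add_cancel, zero_smul] at h3
      exact h3
    have hJk : J.card + 1 ≤ k := by
      by_contra hlt
      obtain ⟨J', hJ', hJc⟩ := exists_subset_card_eq (show k ≤ J.card by omega)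
      have := card_le_finrank _ (lineG_li d (by omega) J' (by omega)) F.direction (by
        intro o
        cases o with
        | none => exact hdir1
        | some t =>
          have h3 := AffineSubspace.vsub_mem_direction (mem_filter.mp (hJ' t.2)).2 h0
          simpa using h3)
      rw [Fintype.card_option, Fintype.card_coe] at this
      omega
    have h3 := card_le_card (inter_subset_right (s₁ := T) (s₂ := lset d k))
    rw [card_lset d k (by omega)] at h3
    omega
  · have hJk : J.card ≤ k + 1 := by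
      by_contra hlt
      obtain ⟨J', hJ', hJc⟩ := exists_subset_card_eq (show k + 2 ≤ J.card by omega)
      obtain ⟨t0, ht0⟩ : J'.Nonempty := card_pos.mp (by omega)
      have h4 := card_le_finrank _ (Pg_li d J' (by omega))
        (F.direction ⊔ Submodule.span ℝ {Pg d t0} : Submodule ℝ _) (by
          intro t
          have h3 := AffineSubspace.vsub_mem_direction (mem_filter.mp (hJ' t.2)).2
            (mem_filter.mp (hJ' ht0)).2
          have h4 : Pg d t = (Pg d t -ᵥ Pg d t0) + Pg d t0 := by simp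
          rw [h4]
          exact Submodule.add_mem_sup h3 (Submodule.mem_span_singleton_self _))
      rw [Fintype.card_coe] at h4
      have h5 := Submodule.finrank_add_le_finrank_add_finrank F.direction
        (Submodule.span ℝ {Pg d t0})
      have h6 : finrank ℝ (Submodule.span ℝ {Pg d t0}) ≤ 1 := by
        refine (finrank_span_le_card (R := ℝ) {Pg d t0}).trans ?_
        simp
      omega
    omega

lemma ex2_not_div (d k : ℕ) (hk : 2 ≤ k) (hkd : k + 2 ≤ d)
    [DecidableEq (EuclideanSpace ℝ (Fin d))] : ¬ Div2 k (ex2 d k) := by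
  rintro ⟨A, B, hAB, hd, hne, hK⟩
  set K := convexHull ℝ (A : Set (EuclideanSpace ℝ (Fin d))) ∩
    convexHull ℝ (B : Set (EuclideanSpace ℝ (Fin d))) with hKdef
  have hspan : ∀ C : Finset (EuclideanSpace ℝ (Fin d)),
      vectorSpan ℝ (convexHull ℝ (C : Set (EuclideanSpace ℝ (Fin d)))) =
        vectorSpan ℝ (C : Set (EuclideanSpace ℝ (Fin d))) := by
    intro C
    rw [← direction_affineSpan, affineSpan_convexHull, direction_affineSpan]
  have hA : vectorSpan ℝ K ≤ vectorSpan ℝ (A : Set (EuclideanSpace ℝ (Fin d))) := by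
    rw [← hspan A]
    exact vectorSpan_mono ℝ Set.inter_subset_left
  have hB : vectorSpan ℝ K ≤ vectorSpan ℝ (B : Set (EuclideanSpace ℝ (Fin d))) := by
    rw [← hspan B]
    exact vectorSpan_mono ℝ Set.inter_subset_right
  have hup : ∀ C : Finset (EuclideanSpace ℝ (Fin d)), C ⊆ ex2 d k →
      finrank ℝ (vectorSpan ℝ (C : Set (EuclideanSpace ℝ (Fin d)))) ≤ (C ∩ gset d k).card + 1 := by
    intro C hC
    have hmem : ∀ x ∈ C, x ∈ Submodule.span ℝ
        ((insert (Pl d 1) (C ∩ gset d k) : Finset _) : Set (EuclideanSpace ℝ (Fin d))) := by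
      intro x hx
      have h1 := hC hx
      rcases (mem_ex2 d k x).mp h1 with h | h
      · obtain ⟨s, _, rfl⟩ := (mem_lset d k x).mp h
        rw [Pl_smul d s]
        apply Submodule.smul_mem
        apply Submodule.subset_span
        rw [mem_coe]
        exact mem_insert_self _ _
      · apply Submodule.subset_span
        rw [mem_coe]
        exact mem_insert_of_mem (mem_inter.mpr ⟨hx, h⟩)
    have h1 : vectorSpan ℝ (C : Set (EuclideanSpace ℝ (Fin d))) ≤ Submodule.span ℝ
        ((insert (Pl d 1) (C ∩ gset d k) : Finset _) : Set (EuclideanSpace ℝ (Fin d))) := by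
      rw [vectorSpan_def, Submodule.span_le]
      rintro v ⟨a, ha, b, hb, rfl⟩
      exact Submodule.sub_mem _ (hmem a ha) (hmem b hb)
    have h2 := Submodule.finrank_mono h1
    have h3 := finrank_span_finset_le_card (R := ℝ)
      (insert (Pl d 1) (C ∩ gset d k) : Finset (EuclideanSpace ℝ (Fin d)))
    have h4 := card_insert_le (Pl d 1) (C ∩ gset d k)
    exact h2.trans (h3.trans h4)
  have hAs : A ⊆ ex2 d k := by rw [← hAB]; exact subset_union_left
  have hBs : B ⊆ ex2 d k := by rw [← hAB]; exact subset_union_right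
  have h1 := hup A hAs
  have h2 := hup B hBs
  have hcard : (A ∩ gset d k).card + (B ∩ gset d k).card = (gset d k).card := by
    rw [← card_union_of_disjoint, ← union_inter_distrib_right, hAB]
    · congr 1
      ext x
      simp only [mem_inter, mem_ex2]
      tauto
    · exact disjoint_of_subset_left inter_subset_left
        (disjoint_of_subset_right inter_subset_left hd)
  rw [card_gset d k (by omega)] at hcard
  have hsupr : vectorSpan ℝ (A : Set (EuclideanSpace ℝ (Fin d))) ⊔
      vectorSpan ℝ (B : Set (EuclideanSpace ℝ (Fin d))) = ⊤ := by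
    set M := vectorSpan ℝ (A : Set (EuclideanSpace ℝ (Fin d))) ⊔
      vectorSpan ℝ (B : Set (EuclideanSpace ℝ (Fin d))) with hM
    obtain ⟨q, hqA, hqB⟩ := hne
    have dirA : ∀ a ∈ A, a -ᵥ q ∈ vectorSpan ℝ (A : Set (EuclideanSpace ℝ (Fin d))) := by
      intro a ha
      rw [← hspan A]
      exact vsub_mem_vectorSpan ℝ (subset_convexHull ℝ _ ha) hqA
    have dirB : ∀ b ∈ B, b -ᵥ q ∈ vectorSpan ℝ (B : Set (EuclideanSpace ℝ (Fin d))) := by
      intro b hb
      rw [← hspan B]
      exact vsub_mem_vectorSpan ℝ (subset_convexHull ℝ _ hb) hqB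
    have dir : ∀ x ∈ ex2 d k, x -ᵥ q ∈ M := by
      intro x hx
      rw [← hAB] at hx
      rcases mem_union.mp hx with h' | h'
      · exact Submodule.mem_sup_left (dirA x h')
      · exact Submodule.mem_sup_right (dirB x h')
    have dir2 : ∀ x ∈ ex2 d k, ∀ y ∈ ex2 d k, x - y ∈ M := by
      intro x hx y hy
      have e : x - y = (x -ᵥ q) - (y -ᵥ q) := by
        simp only [vsub_eq_sub]; abel
      rw [e]
      exact Submodule.sub_mem _ (dir x hx) (dir y hy)
    have hl : ∀ s, 1 ≤ s → s < k + 3 → Pl d s ∈ ex2 d k := by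
      intro s h1 h2
      rw [mem_ex2]
      left
      rw [mem_lset]
      exact ⟨s, mem_Ico.mpr ⟨h1, h2⟩, rfl⟩
    have hg : ∀ t, 1 ≤ t → t < k + d - 2 → Pg d t ∈ ex2 d k := by
      intro s h1 h2
      rw [mem_ex2]
      right
      rw [mem_gset]
      exact ⟨s, mem_Ico.mpr ⟨h1, h2⟩, rfl⟩
    have hl1 : Pl d 1 ∈ M := by
      have h3 := dir2 _ (hl 2 (by omega) (by omega)) _ (hl 1 (by omega) (by omega))
      rw [Pl_smul d 2] at h3
      have e : ((2 : ℕ) : ℝ) • Pl d 1 - Pl d 1 = Pl d 1 := by
        push_cast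
        module
      rwa [e] at h3
    have hcf := card_le_finrank _ (lineG_li d (by omega) (Ico 1 d) (by
        rw [Nat.card_Ico]; omega)) M (by
      intro o
      cases o with
      | none => exact hl1
      | some t =>
        have ht := mem_Ico.mp t.2
        have h3 := dir2 _ (hg t ht.1 (by omega)) _ (hl 1 (by omega) (by omega))
        have h4 := Submodule.add_mem _ h3 hl1
        rw [sub_add_cancel] at h4
        exact h4)
    rw [Fintype.card_option, Fintype.card_coe, Nat.card_Ico] at hcf
    apply Submodule.eq_top_of_finrank_eq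
    have h5 := Submodule.finrank_le M
    rw [finrank_euclideanSpace_fin] at h5 ⊢
    omega
  have h5 := Submodule.finrank_sup_add_finrank_inf_eq
    (vectorSpan ℝ (A : Set (EuclideanSpace ℝ (Fin d))))
    (vectorSpan ℝ (B : Set (EuclideanSpace ℝ (Fin d))))
  rw [hsupr, finrank_top, finrank_euclideanSpace_fin] at h5
  have h6 := Submodule.finrank_mono (le_inf hA hB)
  omega

end Line

end Pool.Agent.Helper894.Div.Ex
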